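import Mathlib
import Pool.Agent.Q64.P.Defs

/-!
# Bloch-Beilinson filtrations on classes of varieties over finite fields: definitions
-/

set_option autoImplicit false

open CategoryTheory AlgebraicGeometry

universe u v w

namespace Pool.Agent.Q64.B

open Module Polynomial Pool.Agent.H914 Pool.Agent.H914.VarClass Pool.Agent.H914.VarClass.Obj
  Pool.Agent.W492.BB Pool.Agent.W484.CK Pool.Agent.Y1.CT Pool.Agent.Y122.NCP Pool.Agent.Q64.CT
  Pool.Agent.Q64.P

section restrict

variable {k : Type u} [Field k] {𝒱 𝒲 : VarClass k}

/-- All varieties of the class `𝒲` belong to the class `𝒱`. -/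
def IsSubclass (𝒲 𝒱 : VarClass k) : Prop := ∀ V : SmVar k, 𝒲.mem V → 𝒱.mem V

/-- A variety of the subclass `𝒲`, as a variety of the class `𝒱`. -/
def incl (h : IsSubclass 𝒲 𝒱) (X : 𝒲.Obj) : 𝒱.Obj := ⟨X.V, h X.V X.mem⟩

/-- The restriction of a theory to the varieties of the subclass `𝒲`. -/
def restrict {F : Type w} [Field F] (h : IsSubclass 𝒲 𝒱) (T : TheoryData.{u, v, w} 𝒱 F) :
    TheoryData.{u, v, w} 𝒲 F where
  A X := T.A (incl h X)
  ring X := T.ring (incl h X)
  algebra X := T.algebra (incl h X)
  gr X i := T.gr (incl h X) i
  pull {X Y} f := T.pull (X := incl h X) (Y := incl h Y) f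
  push {X Y} f := T.push (X := incl h X) (Y := incl h Y) f

/-- The restriction of a Weil cohomology theory to the varieties of the subclass `𝒲`. -/
def restrictWeil {C : TheoryData.{u, v, 0} 𝒱 ℚ} {F : Type w} [Field F] (h : IsSubclass 𝒲 𝒱)
    (H : WeilTheoryData.{u, v, w} C F) : WeilTheoryData.{u, v, w} (restrict h C) F where
  toTheoryData := restrict h H.toTheoryData
  tr X := H.tr (incl h X)
  cl {X} := H.cl (X := incl h X)

end restrict

variable {k : Type u} [Field k] {𝒱 : VarClass k} {C : TheoryData.{u, v, 0} 𝒱 ℚ} {F : Type w}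
  [Field F] (H : WeilTheoryData.{u, v, w} C F)

/-- There is a Bloch-Beilinson filtration (properties 1, 2, 3, 4, 5) on the Chow groups of the
varieties of the class `𝒱`. -/
def HasBB : Prop := ∃ Fil : Filtration C, IsBB H Fil

/-- `χ(π^*) a = 0`, for the polynomial `χ` with rational coefficients. -/
def Annihilates {X : 𝒱.Obj} (χ : ℚ[X]) (π : X ⟶ X) (a : H.A X) : Prop :=
  ∑ n ∈ Finset.range (χ.natDegree + 1), (χ.coeff n : F) • (H.up π)^[n] a = 0

/-- Known facts on the varieties over the field with `Q` elements: each variety `X` has an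
endomorphism (the Frobenius endomorphism) which acts on `CH^i(X)` as multiplication by `Q ^ i` and,
for all `j`, satisfies on `H^j(X)` a nonzero polynomial equation with rational coefficients all of
whose complex roots have the absolute value `Q ^ (j / 2)` (Deligne). -/
def HasFrobenii (Q : ℕ) : Prop :=
  ∀ X : 𝒱.Obj, ∃ π : X ⟶ X, IsFrobenius C π Q ∧ ∀ j : ℕ, ∃ χ : ℚ[X], χ ≠ 0 ∧
    (∀ ρ : ℂ, aeval ρ χ = 0 → ‖ρ‖ ^ 2 = (Q : ℝ) ^ j) ∧
    ∀ a : H.A X, H.Deg j a → Annihilates H χ π a

/-- The variety `X` is dominated by the variety `Y`: there are a morphism `g : Y ⟶ X` and a class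
`w` on `Y` with rational coefficients such that `g_* w` is the fundamental class of `X`. (If `g` is
surjective, there is a subvariety of `Y` which is generically finite over `X`.) -/
def Dominated (C : TheoryData.{u, v, 0} 𝒱 ℚ) (X Y : 𝒱.Obj) : Prop :=
  ∃ (g : Y ⟶ X) (w : C.A Y), C.down g w = 1

/-- The situation of the theorems: `𝒱` is a class of varieties over the field with `q ^ s` elements,
`𝒲` is contained in `𝒱`, and each variety of the class `𝒱` is dominated by a product `A × Z` where
`A` is an abelian variety over the field with `q ^ s` elements, isogenous to a product of powers of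
abelian varieties coming from the field with `q` elements with characteristic polynomials `f i`, and
where `Z` belongs to `𝒲`; the eigenvalues of the Frobenius endomorphism of `Z` on the cohomology are
roots of a polynomial with the property `P`. -/
structure IsBBSituation [CharZero F] (P : ℚ[X] → Prop) (q s : ℕ) {I : Type} (f : I → ℤ[X])
    {𝒲 : VarClass k} (h : IsSubclass 𝒲 𝒱) : Prop where
  standard : IsStandard H
  pos : 0 < s
  frobenii : HasFrobenii H (q ^ s)
  /-- the theorem of Kimura: if rational and homological equivalence coincide on all varieties of the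
  class `𝒲`, which is closed under products, their motives are finite-dimensional; so the motives of
  the varieties `A × Z` above are finite-dimensional, and those of the varieties dominated by
  these, and homologically trivial self-correspondences of degree zero are nilpotent -/
  kimura : (∀ (Z : 𝒲.Obj) (c : ℕ), RatHomIn H (incl h Z) c) → ∀ X : 𝒱.Obj, Nilpotence H X
  dominated : ∀ X : 𝒱.Obj, ∃ (A : 𝒱.Obj) (Z : 𝒲.Obj) (πA : A ⟶ A) (πZ : incl h Z ⟶ incl h Z),
    IsAbelian H πA q s f ∧ EigenvaluesIn H P πZ ∧ IsFrobenius C (prodMap πA πZ) (q ^ s) ∧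
      Dominated C X (A.prod (incl h Z))

/-- `BBReduces P q f`: in the situation `IsBBSituation` (for the Chow groups `C` with rational
coefficients of the class `𝒱` of varieties over a field `k`, finite in the intended use, every Weil
cohomology theory `H` with coefficients in an algebraically closed field `F` of characteristic zero)
there is a Bloch-Beilinson filtration on the Chow groups of the varieties of the class `𝒱` if and
only if there is one on the Chow groups of the varieties of the subclass `𝒲`. -/
def BBReduces (P : ℚ[X] → Prop) (q : ℕ) {I : Type} (f : I → ℤ[X]) : Prop :=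
  ∀ (k : Type) [Field k] (𝒱 𝒲 : VarClass k) (h : IsSubclass 𝒲 𝒱) (C : TheoryData.{0, 0, 0} 𝒱 ℚ)
    [IsChow C] (F : Type) [Field F] [IsAlgClosed F] [CharZero F] (H : WeilTheoryData.{0, 0, 0} C F)
    [IsWeil H] (s : ℕ), IsBBSituation H P q s f h → (HasBB H ↔ HasBB (restrictWeil h H))

end Pool.Agent.Q64.B
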