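import Mathlib
import Pool.Agent.Q64.B.Defs

/-!
# Murre's conjectures for classes of varieties over finite fields: definitions
-/

set_option autoImplicit false

open CategoryTheory AlgebraicGeometry

universe u v w

namespace Pool.Agent.Q64.B

open Polynomial Pool.Agent.H914 Pool.Agent.H914.VarClass Pool.Agent.H914.VarClass.Obj
  Pool.Agent.W492.BB Pool.Agent.W484.CK

section

variable {k : Type u} [Field k] {𝒱 : VarClass k} {C : TheoryData.{u, v, 0} 𝒱 ℚ} {F : Type w}
  [Field F] (H : WeilTheoryData.{u, v, w} C F) {X : 𝒱.Obj}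

/-- Further standard properties of smooth projective, geometrically irreducible varieties:

* push-forwards along isomorphisms preserve fundamental classes;
* a zero-cycle `x` on `X` has a degree `q`: for all `Y` the push-forward of `x × Y` to `Y` is
  `q` times the fundamental class of `Y`;
* the self-intersection number `h ^ dim X` of some divisor class `h` is not zero (`h` is the class
  of a hyperplane section);
* the orientation of the cohomology vanishes outside of the top degree. -/
structure IsProjective : Prop where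
  push_one : ∀ {X Y : 𝒱.Obj} (f : X ⟶ Y) (g : Y ⟶ X), f ≫ g = 𝟙 X → g ≫ f = 𝟙 Y → C.down f 1 = 1
  degree : ∀ (X : 𝒱.Obj) (x : C.A X), C.Deg X.dim x → ∃ q : ℚ, ∀ Y : 𝒱.Obj,
    C.down (snd X Y) (C.up (fst X Y) x) = q • (1 : C.A Y) ∧
      C.down (fst Y X) (C.up (snd Y X) x) = q • (1 : C.A Y)
  polarized : ∀ X : 𝒱.Obj, ∃ h : C.A X, C.Deg 1 h ∧ ∃ q : ℚ, q ≠ 0 ∧
    C.down (snd X X) (C.up (fst X X) (h ^ X.dim)) = q • (1 : C.A X)
  tr_eq_zero : ∀ (X : 𝒱.Obj) (i : ℤ) (a : H.A X), H.Deg i a → i ≠ 2 * X.dim → H.tr X a = 0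

/-- `q` is a Chow-Kunneth decomposition `M = ⊕ M_j`, `M_j = (X, q j)`, of the motive `M = (X, p)`:
the `q j` (`j ∈ ℤ`, almost all zero) are mutually orthogonal idempotent self-correspondences of
degree zero with sum `p`, and `q j` acts as `p` on `H^j(X)` and as zero on `H^m(X)`, `m ≠ j`. (The
decompositions of the twisted motive `(X, p, n)` are the same up to renumbering.) -/
structure IsDecomposition (p : C.A (X.prod X)) (q : ℤ → C.A (X.prod X)) : Prop where
  deg : ∀ j, C.Deg X.dim (q j)
  idem : ∀ j, compose C (q j) (q j) = q j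
  orth : ∀ i j, i ≠ j → compose C (q i) (q j) = 0
  sum : ∃ s : Finset ℤ, (∀ j ∉ s, q j = 0) ∧ ∑ j ∈ s, q j = p
  act_self : ∀ (j : ℤ) (a : H.A X), H.Deg j a → H.act (H.cl (q j)) a = H.act (H.cl p) a
  act_ne : ∀ (j m : ℤ) (a : H.A X), m ≠ j → H.Deg m a → H.act (H.cl (q j)) a = 0

/-- The class `x` lies in the step `F^ν CH^i(M) = ⊕ CH^i(M_j)`, the sum over `j ≤ 2i - ν`: it is in
`CH^i(M) = p_* CH^i(X)`, and its components in `CH^i(M_j)`, `j > 2i - ν`, are zero. -/
def InFil (C : TheoryData.{u, v, 0} 𝒱 ℚ) {X : 𝒱.Obj} (p : C.A (X.prod X))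
    (q : ℤ → C.A (X.prod X)) (i : ℕ) (ν : ℤ) (x : C.A X) : Prop :=
  C.Deg i x ∧ C.act p x = x ∧ ∀ j : ℤ, 2 * i - ν < j → C.act (q j) x = 0

/-- Murre's conjectures (A), (B), (C), (D) for the motive `M = (X, p)`: there is a Chow-Kunneth
decomposition (A) such that `CH^i(M_j) = 0` for `j > 2i` (B) and such that the homologically trivial
classes in `CH^i(M_(2i))` are zero (D); the filtrations of `CH^i(M)` defined by any two Chow-Kunneth
decompositions coincide (C). -/
structure Murre (X : 𝒱.Obj) (p : C.A (X.prod X)) : Prop where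
  exists_BD : ∃ q, IsDecomposition H p q ∧
    (∀ (i : ℕ) (j : ℤ), 2 * i < j → ∀ x : C.A X, C.Deg i x → C.act (q j) x = 0) ∧
    ∀ (i : ℕ) (x : C.A X), C.Deg i x → H.cl x = 0 → C.act (q (2 * i)) x = 0
  indep : ∀ q q', IsDecomposition H p q → IsDecomposition H p q' → ∀ (i : ℕ) (ν : ℤ) (x : C.A X),
    InFil C p q i ν x ↔ InFil C p q' i ν x

/-- Murre's conjectures (A), (B), (C), (D) hold for all motives `(X, p)`, `X` in the class `𝒱`. -/
def MurreAll : Prop :=
  ∀ (X : 𝒱.Obj) (p : C.A (X.prod X)), C.Deg X.dim p → compose C p p = p → Murre H X p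

end

/-- `MurreReduces P q f`: in the situation `IsBBSituation` (for the Chow groups `C` with rational
coefficients of the class `𝒱` of varieties over a field `k`, finite in the intended use, every Weil
cohomology theory `H` with coefficients in an algebraically closed field `F` of characteristic zero)
Murre's conjectures (A), (B), (C), (D) hold for all motives `(X, p)` with `X` in the class `𝒱` if and
only if they hold for all motives `(Z, p)` with `Z` in the subclass `𝒲`. -/
def MurreReduces (P : ℚ[X] → Prop) (q : ℕ) {I : Type} (f : I → ℤ[X]) : Prop :=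
  ∀ (k : Type) [Field k] (𝒱 𝒲 : VarClass k) (h : IsSubclass 𝒲 𝒱) (C : TheoryData.{0, 0, 0} 𝒱 ℚ)
    [IsChow C] (F : Type) [Field F] [IsAlgClosed F] [CharZero F] (H : WeilTheoryData.{0, 0, 0} C F)
    [IsWeil H] (s : ℕ), IsProjective H → IsBBSituation H P q s f h →
      (MurreAll H ↔ MurreAll (restrictWeil h H))

end Pool.Agent.Q64.B
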