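import Mathlib
import Pool.Agent.Q64.B.Defs
import Pool.Agent.Q64.N.Main

/-!
# Bloch-Beilinson filtrations on classes of varieties over finite fields: proofs
-/

set_option autoImplicit false
set_option linter.unusedSectionVars false

open CategoryTheory AlgebraicGeometry

universe u v w

namespace Pool.Agent.Q64.B

open Module Polynomial Pool.Agent.H914 Pool.Agent.H914.VarClass Pool.Agent.H914.VarClass.Obj
  Pool.Agent.W492.BB Pool.Agent.W484.CK Pool.Agent.Y1.CT Pool.Agent.Y122.NCP Pool.Agent.Q64.CT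
  Pool.Agent.Q64.P Pool.Agent.Q64.L

section restrict

variable {k : Type u} [Field k] {𝒱 𝒲 : VarClass k} {C : TheoryData.{u, v, 0} 𝒱 ℚ}

theorem restrict_isTheory {F : Type w} [Field F] (h : IsSubclass 𝒲 𝒱)
    {T : TheoryData.{u, v, w} 𝒱 F} {δ : ℤ} (hT : IsTheory T δ) : IsTheory (restrict h T) δ where
  isGradedRing :=
    { isInternal := fun X => hT.isGradedRing.isInternal (incl h X)
      gr_neg := fun X i hi => hT.isGradedRing.gr_neg (incl h X) i hi
      one_mem := fun X => hT.isGradedRing.one_mem (incl h X)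
      mul_mem := fun {X} _ _ _ _ ha hb => hT.isGradedRing.mul_mem (X := incl h X) ha hb }
  hasDegrees :=
    { pull_mem := fun {X Y} f _ _ hb =>
        hT.hasDegrees.pull_mem (X := incl h X) (Y := incl h Y) f hb
      push_mem := fun {X Y} f _ _ ha =>
        hT.hasDegrees.push_mem (X := incl h X) (Y := incl h Y) f ha }
  isFunctor :=
    { pull_id := fun {X} a => hT.isFunctor.pull_id (X := incl h X) a
      pull_comp := fun {X Y Z} f g a =>
        hT.isFunctor.pull_comp (X := incl h X) (Y := incl h Y) (Z := incl h Z) f g a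
      push_id := fun {X} a => hT.isFunctor.push_id (X := incl h X) a
      push_comp := fun {X Y Z} f g a =>
        hT.isFunctor.push_comp (X := incl h X) (Y := incl h Y) (Z := incl h Z) f g a }
  hasProjectionFormula :=
    { proj_right := fun {X Y} f a b =>
        hT.hasProjectionFormula.proj_right (X := incl h X) (Y := incl h Y) f a b
      proj_left := fun {X Y} f a b =>
        hT.hasProjectionFormula.proj_left (X := incl h X) (Y := incl h Y) f a b }
  hasBaseChange :=
    { base_fst := fun {X Y} f Z a =>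
        hT.hasBaseChange.base_fst (X := incl h X) (Y := incl h Y) f (incl h Z) a
      base_snd := fun {X Y} f Z a =>
        hT.hasBaseChange.base_snd (X := incl h X) (Y := incl h Y) f (incl h Z) a }

theorem restrict_isChow (h : IsSubclass 𝒲 𝒱) (hC : IsChow C) : IsChow (restrict h C) where
  isTheory := restrict_isTheory h hC.isTheory
  mul_comm := fun {X} a b => hC.mul_comm (X := incl h X) a b
  exists_deg_one := fun X => by
    obtain ⟨a, h1, h2, h3⟩ := hC.exists_deg_one (incl h X)
    exact ⟨a, h1, fun Z => h2 (incl h Z), fun Z => h3 (incl h Z)⟩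

theorem restrict_isWeil {F : Type w} [Field F] {H : WeilTheoryData.{u, v, w} C F}
    (h : IsSubclass 𝒲 𝒱) (hH : IsWeil H) : IsWeil (restrictWeil h H) where
  isTheory := restrict_isTheory h hH.isTheory
  isOriented :=
    { tr_push := fun {X Y} f a =>
        hH.isOriented.tr_push (X := incl h X) (Y := incl h Y) f a
      nondeg := fun {X} a ha => hH.isOriented.nondeg (X := incl h X) a ha }
  kunnethFormula := fun X Y m => hH.kunnethFormula (incl h X) (incl h Y) m
  isClassMap :=
    { cl_mem := fun {X} _ _ hz => hH.isClassMap.cl_mem (X := incl h X) hz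
      cl_pull := fun {X Y} f z =>
        hH.isClassMap.cl_pull (X := incl h X) (Y := incl h Y) f z
      cl_push := fun {X Y} f z =>
        hH.isClassMap.cl_push (X := incl h X) (Y := incl h Y) f z
      cl_central := fun {X} z a => hH.isClassMap.cl_central (X := incl h X) z a }

end restrict

variable {k : Type u} [Field k] {𝒱 : VarClass k} {C : TheoryData.{u, v, 0} 𝒱 ℚ} {F : Type w}
  [Field F] (H : WeilTheoryData.{u, v, w} C F) [hC : IsChow C] [hH : IsWeil H]

/-- Polynomials in an endomorphism are induced by correspondences. -/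
theorem realised_aeval [CharZero F] {X : 𝒱.Obj} (π : X ⟶ X) (P : ℚ[X]) :
    Realised H X X 0 (aeval ((C.pull π).toLinearMap : End ℚ (C.A X)) P)
      (aeval ((H.pull π).toLinearMap : End F (H.A X)) (P.map (algebraMap ℚ F))) := by
  induction P using Polynomial.induction_on' with
  | add p q hp hq =>
    refine (hp.sub ((Realised.id X).sub hq |>.sub (Realised.id X))).congr rfl ?_ ?_
    · intro x
      rw [map_add, LinearMap.add_apply]
      abel
    · intro a
      rw [Polynomial.map_add, map_add, LinearMap.add_apply]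
      abel
  | monomial n r =>
    have h0 : ∀ n : ℕ, Realised H X X 0
        (fun x => (((C.pull π).toLinearMap : End ℚ (C.A X)) ^ n : End ℚ (C.A X)) x)
        (fun a => (((H.pull π).toLinearMap : End F (H.A X)) ^ n : End F (H.A X)) a) := by
      intro n
      induction n with
      | zero =>
        refine (Realised.id X).congr rfl (fun x => ?_) (fun a => ?_)
        · rw [pow_zero]
          rfl
        · rw [pow_zero]
          rfl
      | succ n ih =>
        refine (ih.comp (Realised.pull π)).congr (by ring) (fun x => ?_) (fun a => ?_)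
        · rw [pow_succ']
          rfl
        · rw [pow_succ']
          rfl
    have h1 : (algebraMap ℚ (C.A X) r) ∈ C.gr X 0 := by
      rw [Algebra.algebraMap_eq_smul_one]
      exact Submodule.smul_mem _ _ (C.one_mem X)
    refine ((h0 n).comp (Realised.mul h1)).congr (by ring) (fun x => ?_) (fun a => ?_)
    · rw [aeval_monomial, Module.End.mul_apply, Algebra.algebraMap_eq_smul_one,
        smul_mul_assoc, one_mul, Module.algebraMap_end_apply]
    · have h2 : H.cl (algebraMap ℚ (C.A X) r) = algebraMap F (H.A X) (algebraMap ℚ F r) :=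
        RingHom.congr_fun (Subsingleton.elim ((H.cl).comp (algebraMap ℚ (C.A X)))
          ((algebraMap F (H.A X)).comp (algebraMap ℚ F))) r
      rw [h2, Polynomial.map_monomial, aeval_monomial, Module.End.mul_apply,
        Module.algebraMap_end_apply, Algebra.smul_def]

theorem aeval_of_annihilates [CharZero F] {X : 𝒱.Obj} {π : X ⟶ X} {χ : ℚ[X]} {a : H.A X}
    (h : Annihilates H χ π a) :
    aeval ((H.pull π).toLinearMap : End F (H.A X)) (χ.map (algebraMap ℚ F)) a = 0 := by
  rw [aeval_eq_sum_range, Polynomial.natDegree_map, LinearMap.sum_apply]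
  refine Eq.trans (Finset.sum_congr rfl fun n _ => ?_) h
  rw [LinearMap.smul_apply, Polynomial.coeff_map, eq_ratCast, Module.End.pow_apply]
  rfl

theorem eval_ne_zero {Q i : ℕ} {j : ℕ} (hQ : 1 < Q) {χ : ℚ[X]}
    (hχ : ∀ ρ : ℂ, aeval ρ χ = 0 → ‖ρ‖ ^ 2 = (Q : ℝ) ^ j) (hij : j ≠ 2 * i) :
    χ.eval ((Q : ℚ) ^ i) ≠ 0 := by
  intro h0
  have h1 : aeval (((Q : ℚ) ^ i : ℚ) : ℂ) χ = 0 := by
    have h2 := aeval_algebraMap_apply ℂ ((Q : ℚ) ^ i) χ
    rw [eq_ratCast] at h2
    rw [h2, coe_aeval_eq_eval, h0, map_zero]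
  have h2 := hχ _ h1
  have h3 : ‖(((Q : ℚ) ^ i : ℚ) : ℂ)‖ = (Q : ℝ) ^ i := by
    push_cast
    rw [norm_pow, Complex.norm_natCast]
  rw [h3, ← pow_mul] at h2
  have h4 : (1 : ℝ) < Q := by exact_mod_cast hQ
  have h5 := (pow_right_injective₀ (zero_lt_one.trans h4) h4.ne') h2
  omega

theorem aeval_pull {X : 𝒱.Obj} {π : X ⟶ X} {Q : ℕ} (hπ : IsFrobenius C π Q) (P : ℚ[X]) {i : ℕ}
    {x : C.A X} (hx : C.Deg i x) :
    aeval ((C.pull π).toLinearMap : End ℚ (C.A X)) P x = P.eval ((Q : ℚ) ^ i) • x := by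
  have h1 : ((C.pull π).toLinearMap : End ℚ (C.A X)) x = ((Q : ℚ) ^ i) • x := hπ.chow i x hx
  have h2 := Module.End.aeval_apply_of_hasEigenvector (f := (C.pull π).toLinearMap)
    (p := P) (μ := (Q : ℚ) ^ i) (x := x)
  by_cases hx0 : x = 0
  · rw [hx0, map_zero, smul_zero]
  · exact h2 ⟨Module.End.mem_eigenspace_iff.2 h1, hx0⟩

/-- The Kunneth conjecture follows from the weights (Katz, Messing). -/
theorem kunneth_of_weights [CharZero F] (hS : IsStandard H) {Q : ℕ} (hQ : 1 < Q)
    (hF : HasFrobenii H Q) : KunnethConjecture H := by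
  intro X m
  obtain ⟨π, -, hw⟩ := hF X
  choose χ h0 hroot hχ' using hw
  have hχ : ∀ (j : ℕ) (a : H.A X), H.Deg j a →
      aeval ((H.pull π).toLinearMap : End F (H.A X)) ((χ j).map (algebraMap ℚ F)) a = 0 :=
    fun j a ha => aeval_of_annihilates H (hχ' j a ha)
  let s : Finset ℕ := (Finset.range (2 * X.dim + 1)).erase m
  have hcop : IsCoprime (χ m) (∏ l ∈ s, χ l) := by
    refine IsCoprime.prod_right fun l hl => ?_
    have hlm : l ≠ m := Finset.ne_of_mem_erase hl
    rw [← Polynomial.isCoprime_map (algebraMap ℚ ℂ),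
      Polynomial.isCoprime_iff_aeval_ne_zero_of_isAlgClosed ℂ ℂ]
    intro ρ
    rw [or_iff_not_imp_left]
    intro h1 h2
    have h3 : aeval ρ (χ m) = 0 := by
      rw [Ne, not_not, aeval_map_algebraMap] at h1
      exact h1
    have h4 : aeval ρ (χ l) = 0 := by
      rw [aeval_map_algebraMap] at h2
      exact h2
    have h5 := (hroot m ρ h3).symm.trans (hroot l ρ h4)
    have h6 : (1 : ℝ) < Q := by exact_mod_cast hQ
    exact hlm ((pow_right_injective₀ (zero_lt_one.trans h6) h6.ne') h5).symm
  obtain ⟨a, b, hab⟩ := hcop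
  obtain ⟨Γ, hΓ, -, hact⟩ := realised_aeval H π (b * ∏ l ∈ s, χ l)
  refine ⟨Γ, by simpa using hΓ, fun l v hv => ?_⟩
  rw [hact]
  by_cases hv0 : v = 0
  · rw [hv0, map_zero]
    split <;> rfl
  have hl0 : 0 ≤ l := by
    by_contra hneg
    rw [not_le] at hneg
    refine hv0 ?_
    have := hv
    rw [TheoryData.Deg, H.gr_neg X l hneg] at this
    exact (Submodule.mem_bot F).1 this
  have hl1 : l ≤ 2 * (X.dim : ℤ) := by
    by_contra hbig
    rw [not_le] at hbig
    exact hv0 (hS.coh_top X l v hbig hv)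
  obtain ⟨l', rfl⟩ := Int.eq_ofNat_of_zero_le hl0
  have hl2 : l' ∈ Finset.range (2 * X.dim + 1) := by
    rw [Finset.mem_range]; omega
  by_cases hlm : l' = m
  · subst hlm
    rw [if_pos rfl]
    have h1 : b * ∏ l ∈ s, χ l = 1 - a * χ l' := by
      rw [← hab]; ring
    rw [h1, Polynomial.map_sub, Polynomial.map_mul, map_sub, map_mul, Polynomial.map_one, map_one,
      LinearMap.sub_apply, Module.End.mul_apply, hχ l' v hv, map_zero, sub_zero]
    rfl
  · rw [if_neg (by exact_mod_cast hlm)]
    have hmem : l' ∈ s := Finset.mem_erase.2 ⟨hlm, hl2⟩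
    rw [← Finset.mul_prod_erase s χ hmem, mul_left_comm, mul_comm, Polynomial.map_mul, map_mul,
      Module.End.mul_apply, hχ l' v hv, map_zero]

/-- The trivial filtration. -/
def trivialFil (C : TheoryData.{u, v, 0} 𝒱 ℚ) : Filtration C where
  F X i n := if n = 0 then C.gr X i else ⊥
  le_gr X i n := by
    split
    · exact le_rfl
    · exact bot_le
  anti X i n := by
    rw [if_neg (Nat.succ_ne_zero n)]
    exact bot_le

theorem mem_zero {X : 𝒱.Obj} {i : ℕ} {x : C.A X} : (trivialFil C).Mem i 0 x ↔ C.Deg i x := by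
  rw [Filtration.Mem, trivialFil]
  simp only [if_true]

theorem mem_pos {X : 𝒱.Obj} {i n : ℕ} {x : C.A X} (hn : n ≠ 0) :
    (trivialFil C).Mem i n x ↔ x = 0 := by
  rw [Filtration.Mem, trivialFil]
  simp only [if_neg hn, Submodule.mem_bot]

/-- If the cycle class maps are injective, the trivial filtration is a Bloch-Beilinson
filtration. -/
theorem isBB_trivial (h : ∀ (X : 𝒱.Obj) (c : ℕ), RatHomIn H X c) : IsBB H (trivialFil C) := by
  refine ⟨⟨fun X i x => mem_zero, fun X i x => ?_, fun X i x hx => ?_⟩, ⟨?_, ?_, ?_⟩, ?_⟩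
  · rw [mem_pos one_ne_zero]
    constructor
    · rintro rfl
      exact ⟨Submodule.zero_mem _, map_zero _⟩
    · rintro ⟨h1, h2⟩
      exact h X i x h1 h2
  · rwa [mem_pos (Nat.succ_ne_zero i)] at hx
  · intro X i j m n x y hx hy
    by_cases hm : m = 0
    · by_cases hn : n = 0
      · subst hm; subst hn
        rw [mem_zero] at hx hy ⊢
        have := C.mul_mem hx hy
        push_cast
        exact this
      · rw [mem_pos hn] at hy
        rw [mem_pos (by omega), hy]
        exact mul_zero x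
    · rw [mem_pos hm] at hx
      rw [mem_pos (by omega), hx]
      exact zero_mul y
  · intro X Y f i n y hy
    by_cases hn : n = 0
    · subst hn
      rw [mem_zero] at hy ⊢
      exact C.pull_mem f hy
    · rw [mem_pos hn] at hy ⊢
      rw [hy]
      exact map_zero _
  · intro X Y f i j n x hij hx
    by_cases hn : n = 0
    · subst hn
      rw [mem_zero] at hx ⊢
      have h1 := C.push_mem f hx
      have h2 : (i : ℤ) + 1 * ((Y.dim : ℤ) - X.dim) = j := by
        have : (i : ℤ) + Y.dim = j + X.dim := by exact_mod_cast hij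
        linarith
      rwa [h2] at h1
    · rw [mem_pos hn] at hx ⊢
      rw [hx]
      exact map_zero _
  · intro _ X i n Γ hΓ hkill x hx
    rw [mem_pos (Nat.succ_ne_zero n)]
    by_cases hn : n = 0
    · subst hn
      rw [mem_zero] at hx
      refine h X i _ ?_ ?_
      · have h1 : Γ ∈ C.gr (X.prod X) (X.dim + 0) := by
          rw [add_zero]; exact hΓ
        have := act_mem h1 hx
        rwa [add_zero] at this
      · rw [cl_act]
        refine hkill _ ?_
        have := H.cl_mem hx
        rw [TheoryData.Deg]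
        push_cast
        rwa [sub_zero]
    · rw [mem_pos hn] at hx
      rw [hx]
      exact C.act_map_zero Γ

/-- Over a finite field a Bloch-Beilinson filtration exists if and only if the cycle class maps are
injective. -/
theorem hasBB_iff [CharZero F] (hS : IsStandard H) {Q : ℕ} (hQ : 1 < Q) (hF : HasFrobenii H Q) :
    HasBB H ↔ ∀ (X : 𝒱.Obj) (c : ℕ), RatHomIn H X c := by
  refine ⟨?_, fun h => ⟨_, isBB_trivial H h⟩⟩
  rintro ⟨Fil, hb, -, hm⟩ X i x hx hcl
  have hK := kunneth_of_weights H hS hQ hF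
  obtain ⟨π, hπ, hw⟩ := hF X
  have key : ∀ n : ℕ, 1 ≤ n → n ≤ 2 * i → Fil.Mem i n x → Fil.Mem i (n + 1) x := by
    intro n hn hn2 hxn
    obtain ⟨χ, h0, hroot, hχ⟩ := hw (2 * i - n)
    obtain ⟨Γ, hΓ, hact, hact'⟩ := realised_aeval H π χ
    have h1 : Fil.Mem i (n + 1) (C.act Γ x) := by
      refine hm hK X i n Γ (by simpa using hΓ) (fun a ha => ?_) x hxn
      rw [hact']
      refine aeval_of_annihilates H (hχ a ?_)
      rw [TheoryData.Deg] at ha ⊢
      have : ((2 * i - n : ℕ) : ℤ) = 2 * (i : ℤ) - n := by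
        push_cast [Nat.cast_sub hn2]
        ring
      rwa [this]
    rw [hact, aeval_pull hπ χ hx] at h1
    have h2 : χ.eval ((Q : ℚ) ^ i) ≠ 0 := eval_ne_zero hQ hroot (by omega)
    have h3 := Submodule.smul_mem (Fil.F X i (n + 1)) (χ.eval ((Q : ℚ) ^ i))⁻¹ h1
    rwa [smul_smul, inv_mul_cancel₀ h2, one_smul] at h3
  have h1 : Fil.Mem i 1 x := (hb.one X i x).2 ⟨hx, hcl⟩
  by_cases hi : i = 0
  · subst hi
    exact hb.top X 0 x h1
  have h2 : ∀ n : ℕ, 1 ≤ n → n ≤ i + 1 → Fil.Mem i n x := by
    intro n hn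
    induction n, hn using Nat.le_induction with
    | base => intro _; exact h1
    | succ n hn ih => intro hle; exact key n hn (by omega) (ih (by omega))
  exact hb.top X i x (h2 (i + 1) (by omega) le_rfl)

theorem restrict_hasFrobenii [CharZero F] {𝒲 : VarClass k} (h : IsSubclass 𝒲 𝒱) {Q : ℕ}
    (hF : HasFrobenii H Q) : HasFrobenii (restrictWeil h H) Q := by
  intro X
  obtain ⟨π, hπ, hw⟩ := hF (incl h X)
  exact ⟨π, ⟨hπ.chow, hπ.degree⟩, hw⟩

theorem restrict_isStandard {𝒲 : VarClass k} (h : IsSubclass 𝒲 𝒱) (hS : IsStandard H) :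
    IsStandard (restrictWeil h H) where
  finite := fun X => hS.finite (incl h X)
  nontrivial := fun X => hS.nontrivial (incl h X)
  coh_top := fun X => hS.coh_top (incl h X)
  coh_zero := fun X => hS.coh_zero (incl h X)
  chow_top := fun X => hS.chow_top (incl h X)
  chow_zero := fun X => hS.chow_zero (incl h X)

theorem ratHom_dominated {X Y : 𝒱.Obj} (h : Dominated C X Y) (hY : ∀ c : ℕ, RatHomIn H Y c)
    (c : ℕ) : RatHomIn H X c := by
  intro x hx hcl
  obtain ⟨g, w, hw⟩ := h
  have h1 : C.pull g x = 0 := by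
    refine hY c _ (C.pull_mem g hx) ?_
    rw [H.cl_pull, hcl, map_zero]
  have h2 := C.proj_right g w x
  have h3 : C.push g w = 1 := hw
  rw [h1, mul_zero, map_zero, h3, one_mul] at h2
  exact h2.symm

theorem bbReduces {P : ℚ[X] → Prop} {q : ℕ} (hq : 1 < q) {I : Type} {f : I → ℤ[X]}
    (hG : Good P q f) : BBReduces P q f := by
  intro k _ 𝒱 𝒲 h C hC F _ _ _ H hH s hsit
  have hQ : 1 < q ^ s := Nat.one_lt_pow hsit.pos.ne' hq
  have hC' : IsChow (restrict h C) := restrict_isChow h hC
  have hH' : IsWeil (restrictWeil h H) := restrict_isWeil h hH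
  rw [hasBB_iff H hsit.standard hQ hsit.frobenii,
    hasBB_iff (restrictWeil h H) (restrict_isStandard H h hsit.standard) hQ
      (restrict_hasFrobenii H h hsit.frobenii)]
  have e1 : (∀ (X : 𝒲.Obj) (c : ℕ), RatHomIn (restrictWeil h H) X c) ↔
      ∀ (X : 𝒲.Obj) (c : ℕ), RatHomIn H (incl h X) c := Iff.rfl
  rw [e1]
  refine ⟨fun h1 X c => h1 (incl h X) c, fun h1 X c => ?_⟩
  obtain ⟨A, Z, πA, πZ, hA, hZ, hF, hdom⟩ := hsit.dominated X
  refine ratHom_dominated H hdom (fun c => ?_) c
  have h2 := Pool.Agent.Q64.N.ratNumReduces' hq hG k 𝒱 C F H s A (incl h Z) πA πZ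
    ⟨hsit.standard, hsit.pos, hA, hZ, hsit.kimura h1 _⟩ hF
  exact (h2.2 c).2.2 fun i _ _ => h1 Z _

end Pool.Agent.Q64.B
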