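import Mathlib
import Pool.Agent.Q64.B.MDefs
import Pool.Agent.Q64.B.Thms
import Pool.Agent.Q69.Murre.Mot
import Pool.Agent.Q69.Murre.BBJ

/-!
# Murre's conjectures for classes of varieties over finite fields: proofs
-/

set_option autoImplicit false
set_option linter.unusedSectionVars false

open CategoryTheory AlgebraicGeometry

universe u v w

namespace Pool.Agent.Q64.B

open Module Polynomial Pool.Agent.H914 Pool.Agent.H914.VarClass Pool.Agent.H914.VarClass.Obj
  Pool.Agent.W492.BB Pool.Agent.W550.Corr Pool.Agent.W484.CK Pool.Agent.Y1.CT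
  Pool.Agent.Y122.NCP Pool.Agent.Q64.CT
  Pool.Agent.Q64.P Pool.Agent.Q64.L Pool.Agent.TH133 Pool.Agent.Q69.Murre

variable {k : Type u} [Field k] {𝒱 : VarClass k} {C : TheoryData.{u, v, 0} 𝒱 ℚ} {F : Type w}
  [Field F] (H : WeilTheoryData.{u, v, w} C F) [hC : IsChowProj C] [hH : IsWeilProj H]

/-- Over a finite field the middle case of (D) for one Chow-Kunneth decomposition of `X` implies that
the cycle class maps of `X` are injective. -/
theorem ratHom_of_middle [CharZero F] {Q : ℕ} (hQ : 1 < Q) (hF : HasFrobenii H Q) {X : 𝒱.Obj}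
    {π : ℕ → C.A (X.prod X)} (hπ : IsCK H X π) (hD : MiddleD C H π) (c : ℕ) :
    RatHomIn H X c := by
  intro x hx h0
  have hS := SL_of_middle hπ hD
  have hn := isNilpotent_of_SL (isCK_cr hπ) hS
  obtain ⟨φ, hφ, hw⟩ := hF X
  have hsum : x = ∑ i ∈ Finset.range (2 * X.dim + 1), C.act (π i) x := by
    have h1 : C.act (dg C X) x = x := act_dg C x
    rw [← hπ.sum] at h1
    have h2 : C.act (∑ i ∈ Finset.range (2 * X.dim + 1), π i) x =
        ∑ i ∈ Finset.range (2 * X.dim + 1), C.act (π i) x := by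
      rw [TheoryData.act_apply, Finset.sum_mul, map_sum]
      rfl
    rw [← h2, h1]
  rw [hsum]
  refine Finset.sum_eq_zero fun j _ => ?_
  by_cases hj : j = 2 * c
  · exact murreD_of_SL (isCK_cr hπ) hS (l := c) (b := j) hj.ge hx h0
  · obtain ⟨χ, hχ0, hroot, hχ⟩ := hw j
    obtain ⟨Γ, hΓ, ha, ha'⟩ := realised_aeval H φ χ
    have hΓ0 : cr Γ ∈ cor0 C X := by
      have : Γ ∈ C.gr (X.prod X) X.dim := by simpa using hΓ
      exact this
    have hγ : HT H (cr Γ * cr (π j)) := by
      refine HT.of ((cor0 C X).mul_mem hΓ0 (hπ.deg j)) ?_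
      apply ext_gr H
      intro m a ham
      rw [map_mul, Module.End.mul_apply]
      change H.act (H.cl Γ) (H.act (H.cl (π j)) a) = 0
      by_cases hmj : m = j
      · subst hmj
        rw [hπ.act_self j a ham, ha']
        exact aeval_of_annihilates H (hχ a ham)
      · rw [hπ.act_ne j m a hmj ham, TheoryData.act_map_zero]
    obtain ⟨n, hn⟩ := hn _ hγ
    have hy : C.act (π j) x ∈ C.gr X c := act_mem0 C (hπ.deg j) hx
    have hyy : C.act (π j) (C.act (π j) x) = C.act (π j) x := by
      rw [← C.act_comp, hπ.idem]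
    have key : ∀ m : ℕ, actC C X ((cr Γ * cr (π j)) ^ m) (C.act (π j) x) =
        (χ.eval ((Q : ℚ) ^ c)) ^ m • C.act (π j) x := by
      intro m
      induction m with
      | zero =>
        rw [pow_zero, map_one, pow_zero, one_smul]
        rfl
      | succ m ih =>
        rw [pow_succ', actC_mul (H := H), ih, map_smul, actC_mul (H := H)]
        change (χ.eval ((Q : ℚ) ^ c)) ^ m • C.act Γ (C.act (π j) (C.act (π j) x)) = _
        rw [hyy, ha, aeval_pull hφ χ hy, smul_smul, pow_succ]
    have h1 := key n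
    rw [hn, map_zero, LinearMap.zero_apply] at h1
    have h2 : χ.eval ((Q : ℚ) ^ c) ≠ 0 := eval_ne_zero hQ hroot hj
    exact (smul_eq_zero.1 h1.symm).resolve_left (pow_ne_zero _ h2)

theorem compose_eq {X Y Z : 𝒱.Obj} (Γ : C.A (X.prod Y)) (Δ : C.A (Y.prod Z)) :
    compose C Γ Δ = C.comp Γ Δ := rfl

omit hC hH in
theorem isDecomposition_iff {X : 𝒱.Obj} {p : C.A (X.prod X)} {q : ℤ → C.A (X.prod X)} :
    IsDecomposition H p q ↔ IsCKOf H p q :=
  ⟨fun h => ⟨h.deg, h.idem, h.orth, h.sum, h.act_self, h.act_ne⟩,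
    fun h => ⟨h.deg, h.idem, h.orth, h.sum, h.act_self, h.act_ne⟩⟩

theorem murre_iff {X : 𝒱.Obj} {p : C.A (X.prod X)} : Murre H X p ↔ MurreConj H X p := by
  have key : ∀ q, IsCKOf H p q → ∀ (i : ℕ) (ν : ℤ) (x : C.A X),
      InFil C p q i ν x ↔ x ∈ motFil C q i ν := by
    intro q hq i ν x
    rw [hq.mem_motFil]
    exact Iff.rfl
  constructor
  · rintro ⟨⟨q, hq, hB, hD⟩, hC⟩
    refine ⟨⟨q, (isDecomposition_iff H).1 hq, hB, hD⟩, fun q q' hq hq' i ν => ?_⟩
    ext x
    rw [← key q hq, ← key q' hq']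
    exact hC q q' ((isDecomposition_iff H).2 hq) ((isDecomposition_iff H).2 hq') i ν x
  · rintro ⟨⟨q, hq, hB, hD⟩, hC⟩
    refine ⟨⟨q, (isDecomposition_iff H).2 hq, hB, hD⟩, fun q q' hq hq' i ν x => ?_⟩
    rw [isDecomposition_iff] at hq hq'
    rw [key q hq, key q' hq', hC q q' hq hq' i ν]

/-- Over a finite field Murre's conjectures hold for all motives if and only if the cycle class maps
are injective. -/
theorem murreAll_iff [CharZero F] (hS : IsStandard H) {Q : ℕ} (hQ : 1 < Q)
    (hF : HasFrobenii H Q) : MurreAll H ↔ ∀ (X : 𝒱.Obj) (c : ℕ), RatHomIn H X c := by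
  constructor
  · intro h X c
    obtain ⟨π, hπ, hD⟩ := middleD_of_murreConj (fun Y =>
      (murre_iff H).1 (h Y _ (dg_mem C Y) (Pool.Agent.W550.Corr.comp_dg C _))) X
    exact ratHom_of_middle H hQ hF hπ hD c
  · intro h X p hp hpp
    obtain ⟨π, hπ, hD, -⟩ := middle_of_isBB (isBB_trivial H h) (kunneth_of_weights H hS hQ hF) X
    obtain ⟨⟨q, hq⟩, h2⟩ := murreConj_of_SL (isCK_cr hπ) (SL_of_middle hπ hD) hp hpp
    exact (murre_iff H).2
      ⟨⟨q, hq, (h2 q hq).1, (h2 q hq).2.1⟩, fun q q' hq hq' => (h2 q hq).2.2 q' hq'⟩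

omit hC hH

theorem isChowProj_of [hC : IsChow C] (hS : IsStandard H) (hP : IsProjective H) :
    IsChowProj C :=
  { toIsChow := hC
    toHasIso := ⟨fun f g hfg hgf => hP.push_one f g hfg hgf⟩
    gr_zero := fun X x hx => hS.chow_zero X x hx
    gr_top := fun X i x hx hi => hS.chow_top X i x hi hx
    degree := hP.degree
    polarized := hP.polarized }

theorem isWeilProj_of [hH : IsWeil H] (hS : IsStandard H) (hP : IsProjective H) :
    IsWeilProj H :=
  { toIsWeil := hH
    gr_zero := fun X a ha => hS.coh_zero X a ha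
    one_ne_zero := fun X => by
      have := hS.nontrivial X
      exact one_ne_zero
    tr_eq_zero := hP.tr_eq_zero }

theorem restrict_isProjective {𝒲 : VarClass k} (h : IsSubclass 𝒲 𝒱) (hP : IsProjective H) :
    IsProjective (restrictWeil h H) where
  push_one := fun {X Y} f g hfg hgf => hP.push_one (X := incl h X) (Y := incl h Y) f g hfg hgf
  degree := fun X x hx => by
    obtain ⟨q, hq⟩ := hP.degree (incl h X) x hx
    exact ⟨q, fun Y => hq (incl h Y)⟩
  polarized := fun X => hP.polarized (incl h X)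
  tr_eq_zero := fun X i a ha hi => hP.tr_eq_zero (incl h X) i a ha hi

theorem murreReduces {P : ℚ[X] → Prop} {q : ℕ} (hq : 1 < q) {I : Type} {f : I → ℤ[X]}
    (hG : Good P q f) : MurreReduces P q f := by
  intro k _ 𝒱 𝒲 h C hC F _ _ _ H hH s hP hsit
  have hQ : 1 < q ^ s := Nat.one_lt_pow hsit.pos.ne' hq
  have hC' : IsChow (restrict h C) := restrict_isChow h hC
  have hH' : IsWeil (restrictWeil h H) := restrict_isWeil h hH
  have hS' := restrict_isStandard H h hsit.standard
  have hP' := restrict_isProjective H h hP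
  have h1 : IsChowProj C := isChowProj_of H hsit.standard hP
  have h2 : IsWeilProj H := isWeilProj_of H hsit.standard hP
  have h3 : IsChowProj (restrict h C) := isChowProj_of (restrictWeil h H) hS' hP'
  have h4 : IsWeilProj (restrictWeil h H) := isWeilProj_of (restrictWeil h H) hS' hP'
  have key := bbReduces hq hG k 𝒱 𝒲 h C F H s hsit
  rw [hasBB_iff H hsit.standard hQ hsit.frobenii,
    hasBB_iff (restrictWeil h H) hS' hQ (restrict_hasFrobenii H h hsit.frobenii)] at key
  rw [murreAll_iff H hsit.standard hQ hsit.frobenii,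
    murreAll_iff (restrictWeil h H) hS' hQ (restrict_hasFrobenii H h hsit.frobenii)]
  exact key

end Pool.Agent.Q64.B
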